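import Pool.Agent.R443.Auto

/-!
# `4`-automaticity of `φ_4(S_{4,m}(n))` for `m` not congruent to `6` modulo `8`

`Pool.Agent.R443.SK.S k m n` is the coefficient of `x^n` in
`(1-x)^(-m) ∏_{0 ≤ i ≤ n} (1 - x^(k^i))^(-m(k-1))` (the factors with `i > n` have no
influence on this coefficient); `phi4 z` is the multiplicity of `4` in `z`, and
`IsAutomatic 4 e` says that the set of the sequences `n ↦ e (4^i n + j)`, `j < 4^i`, is finite.
-/

set_option autoImplicit false

namespace Pool.Agent.Results.MP_b3d406_nt.AutomaticNotSixModEight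

open Pool.Agent.R443.SK Pool.Agent.R443.Auto

/-- For every positive integer `m` with `m % 8 ≠ 6` the sequence `φ_4(S_{4,m}(n))` is
`4`-automatic; moreover all the numbers `S_{4,m}(n)` are nonzero. -/
theorem result (m : ℕ) (hm : 0 < m) (hm6 : m % 8 ≠ 6) :
    (∀ n, S 4 m n ≠ 0) ∧ IsAutomatic 4 (fun n => phi4 (S 4 m n)) := by
  have hfact : Fact (Nat.Prime 2) := ⟨Nat.prime_two⟩
  have key : ∃ g : ℕ → ℕ, (∀ v, 1 ≤ v → g (v + 4) = g v) ∧ (∀ v, 1 ≤ g v) ∧
      ∀ n, n ≠ 0 → padicValInt 2 (S 4 m n) = g (padicValNat 2 n) := by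
    rcases (by omega : m % 2 = 1 ∨ m % 4 = 0 ∨ m % 8 = 2) with h | h | h
    · refine ⟨fun v => if v % 4 = 0 then 2 else if v % 4 = 3 then
        padicValNat 2 (m + 1) + 1 else 1, ?_, ?_, fun n hn => caseC_val h hn⟩
      · intro v _
        simp only [Nat.add_mod_right]
      · intro v
        simp only
        split_ifs <;> omega
    · have h4 : 2 ^ 2 ∣ m := by
        norm_num
        omega
      have hv : 2 ≤ padicValNat 2 m := (padicValNat_dvd_iff_le (by omega)).mp h4
      refine ⟨fun v => padicValNat 2 m + 2 - v % 2, ?_, ?_, ?_⟩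
      · intro v _
        simp only
        omega
      · intro v
        simp only
        omega
      · intro n hn
        have h1 := main_val (p := 2) (a := 2) (m := m) (n := n) (by norm_num)
          (by omega) hn (Or.inr ⟨rfl, h4⟩)
        have h2 : (2 : ℕ) ^ 2 = 4 := by norm_num
        rw [h2] at h1
        simp only
        omega
    · obtain ⟨s, rfl⟩ : ∃ s, m = 2 * (4 * s + 1) := ⟨m / 8, by omega⟩
      refine ⟨fun v => if v % 2 = 1 then 2 else if v = 0 then 3 else 4, ?_, ?_,
        fun n hn => caseB_val s n hn⟩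
      · intro v hv
        simp only
        rcases Nat.mod_two_eq_zero_or_one v with h1 | h1
        · rw [if_neg (by omega), if_neg (by omega), if_neg (by omega), if_neg (by omega)]
        · rw [if_pos (by omega), if_pos (by omega)]
      · intro v
        simp only
        split_ifs <;> omega
  obtain ⟨g, hg, hg1, hval⟩ := key
  have hS : ∀ n, S 4 m n ≠ 0 := by
    intro n
    rcases Nat.eq_zero_or_pos n with h | h
    · subst h
      rw [S_zero (by norm_num)]
      exact one_ne_zero
    · intro h0
      have h1 := hval n (by omega)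
      have h2 := hg1 (padicValNat 2 n)
      rw [h0, padicValInt.zero] at h1
      omega
  refine ⟨hS, ?_⟩
  apply automatic_of_nu (fun v => g v / 2)
  · intro v hv
    show g (v + 4) / 2 = g v / 2
    rw [hg v hv]
  · intro n hn
    rw [phi4_eq (hS n), hval n hn]

end Pool.Agent.Results.MP_b3d406_nt.AutomaticNotSixModEight
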